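import Pool.Agent.H343.AN.StC

set_option autoImplicit false

/-! # MP_aa4716_al, C2: contraction away from the antipodes, in the quotient -/

namespace Pool.Agent.H370.AN

open Pool.Agent.TH68 Pool.Agent.Helper97.Hyp Pool.Agent.H343.AN

/-- lift a point `x` together with a point `z` on a geodesic from the base point to `x` -/
lemma lift_pair {Γ : Type} [Group Γ] {W : WNorm Γ} {N : Subgroup Γ} [N.Normal]
    {W' : WNorm (Γ ⧸ N)} (hQ : Quo W N W') {x z : Pt W'} (h : exc (pt W' 1) x z = 0) :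
    ∃ u z' : Pt W, prj W W' u = x ∧ prj W W' z' = z ∧ Red N (pt W 1) u ∧
      dist (pt W 1) z' = dist (pt W' 1) z ∧ dist z' u = dist z x ∧ exc (pt W 1) u z' = 0 := by
  obtain ⟨z', hz1, hz2, _⟩ := exists_lift hQ z
  obtain ⟨u, hu1, hu2⟩ := prj_lift hQ z' x
  rw [hz1] at hu2
  have h1 := dist_triangle (pt W 1) z' u
  have h2 := prj_le hQ (pt W 1) u
  rw [prj_one, hu1] at h2
  unfold exc at h
  have h3 : dist (pt W 1) u = dist (pt W' 1) x := le_antisymm (by linarith) h2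
  refine ⟨u, z', hu1, hz1, ?_, hz2, hu2, ?_⟩
  · rw [red_iff hQ, prj_one, hu1, h3]
  · unfold exc
    linarith

theorem c2 : S_c1 → S_c2 := by
  intro hc1 Γ _ W 𝒜 _ Y R W' hQ hρ x y z w r t hr hr' hxy hxz hyw hzw h1 h2 h3 h4 hZ
  obtain ⟨u, z', hu, hz', hru, hdz, hzu, hez⟩ := lift_pair hQ hxz
  obtain ⟨v, w', hv, hw', hrv, hdw, hwv, hew⟩ := lift_pair hQ hyw
  obtain ⟨n, hn, hd⟩ := exists_smul hQ u v
  rw [hu, hv] at hd
  obtain ⟨m', hm', hfin⟩ := hc1 Y R hρ (o := pt W 1) (u := u) (v := v) (z := z') (w := w')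
    (m := n) (r := r) (t := t) hr hr' hn hru hrv (by rw [hd]; exact hxy) hez hew
    (by rw [hdz, hdw, hzw]) (by rw [hzu]; exact h1) (by rw [hwv]; exact h2)
    (by rw [hzu]; exact h3) (by rw [hwv]; exact h4) (by
      intro A hA s hs
      by_contra hcon
      push Not at hcon
      exact hZ ⟨u, hu, hru, A, hA, s, hs, hcon⟩)
  have h5 := prj_le hQ z' (m' • w')
  rw [prj_smul hm', hz', hw'] at h5
  exact h5.trans hfin

end Pool.Agent.H370.AN
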