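import Pool.Agent.H343.AN.StF
import Pool.Graph.R_seed8.TH68.Fin

set_option autoImplicit false

/-! # MP_aa4716_al, F3: infiniteness -/

namespace Pool.Agent.H370.AN

open Pool.Agent.TH68 Pool.Agent.Helper97.Hyp Pool.Agent.H343.AN

theorem f3 : S_f3 := by
  intro G _ ord odd cent x y z w hne
  by_contra hfin
  rw [not_infinite_iff_finite] at hfin
  have hZ : IsZGroup G := fin_sylow ord (fun x hx _ => cent x hx)
    (fun a b ha _ _ => absurd ha (odd a))
  have hcyc := IsZGroup.isCyclic_commutator G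
  have hmem : ∀ a b : G, cmm a b ∈ commutator G := by
    intro a b
    have h := Subgroup.commutator_mem_commutator (Subgroup.mem_top a) (Subgroup.mem_top b)
    rw [commutatorElement_def] at h
    exact h
  have hc : (⟨cmm x y, hmem x y⟩ : commutator G) * ⟨cmm z w, hmem z w⟩ =
      ⟨cmm z w, hmem z w⟩ * ⟨cmm x y, hmem x y⟩ := by
    obtain ⟨g, hg⟩ := IsCyclic.exists_generator (α := commutator G)
    obtain ⟨i, hi⟩ := Subgroup.mem_zpowers_iff.1 (hg ⟨cmm x y, hmem x y⟩)
    obtain ⟨j, hj⟩ := Subgroup.mem_zpowers_iff.1 (hg ⟨cmm z w, hmem z w⟩)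
    rw [← hi, ← hj, ← zpow_add, ← zpow_add, add_comm]
  have hc2 : cmm x y * cmm z w = cmm z w * cmm x y := congrArg Subtype.val hc
  apply hne
  change cmm x y * cmm z w * (cmm x y)⁻¹ * (cmm z w)⁻¹ = 1
  rw [hc2, mul_inv_cancel_right, mul_inv_cancel]

end Pool.Agent.H370.AN
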